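import Pool.Agent.H174.GP.StD

/-! Sufficient conditions for dominance. -/

open MeasureTheory ProbabilityTheory Finset Filter Topology

namespace Pool.Agent.H383.GP174

open Pool.Agent.H174.GP

theorem countP_of_getD (l : List ℕ) (hl : l.Pairwise (· ≥ ·)) (d k : ℕ) (h : d < l.getD k 0) :
    k + 1 ≤ l.countP (fun a => decide (d < a)) := by
  have hk : k < l.length := by
    by_contra hc
    rw [List.getD_eq_default _ _ (not_lt.mp hc)] at h
    exact absurd h (Nat.not_lt_zero _)
  rw [List.getD_eq_getElem _ _ hk] at h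
  have h1 : (l.take (k + 1)).countP (fun a => decide (d < a)) = (l.take (k + 1)).length := by
    rw [List.countP_eq_length]
    intro a ha
    rw [List.mem_take_iff_getElem] at ha
    obtain ⟨i, hi, rfl⟩ := ha
    have hi1 : i < k + 1 := lt_of_lt_of_le hi (min_le_left _ _)
    have hi2 : i < l.length := lt_of_lt_of_le hi (min_le_right _ _)
    have h2 : l[k] ≤ l[i] := by
      rcases Nat.lt_or_ge i k with h3 | h3
      · exact List.pairwise_iff_getElem.mp hl i k hi2 hk h3
      · have h4 : i = k := by omega
        subst h4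
        exact le_refl _
    simpa using lt_of_lt_of_le h h2
  have h5 : (l.take (k + 1)).length = k + 1 := by
    rw [List.length_take]; omega
  have h6 : (l.take (k + 1)).countP (fun a => decide (d < a)) ≤ l.countP (fun a => decide (d < a)) :=
    (List.take_sublist _ _).countP_le
  omega

theorem countP_toP (d : ℕ) (g h : Fin d → ℕ) : (toP d g h).countP (fun a => d < a) ≤ d := by
  unfold toP
  rw [Multiset.countP_add]
  have h1 : ((Finset.univ : Finset (Fin d)).val.map (topP d g)).countP (fun a => d < a) ≤ d := by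
    refine (Multiset.countP_le_card _ _).trans ?_
    simp
  have h2 : (∑ l : Fin d, Multiset.replicate (h l) ((l : ℕ) + 1)).countP (fun a => d < a) = 0 := by
    rw [Multiset.countP_eq_zero]
    intro a ha
    rw [Multiset.mem_sum] at ha
    obtain ⟨l, -, hl⟩ := ha
    have := Multiset.eq_of_mem_replicate hl
    have := l.isLt
    omega
  omega

theorem getD_le (d : ℕ) (g h : Fin d → ℕ) (k : ℕ) (hk : d ≤ k) :
    ((toP d g h).sort (· ≥ ·)).getD k 0 ≤ d := by
  by_contra hc
  push Not at hc
  have h1 := countP_of_getD ((toP d g h).sort (· ≥ ·)) (Multiset.pairwise_sort _ _) d k hc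
  have h2 : (toP d g h).countP (fun a => d < a)
      = ((toP d g h).sort (· ≥ ·)).countP (fun a => decide (d < a)) := by
    conv_lhs => rw [← Multiset.sort_eq (toP d g h) (· ≥ ·)]
    rw [Multiset.coe_countP]
  have h3 := countP_toP d g h
  omega

theorem gp_domsuf (h1 : S_rowsum) (h2 : S_colsum) (h3 : S_dual2) : Pool.Agent.H174.GP.S_domsuf := by
  intro d d' g h g' h' hd hsum hyp k
  rcases Nat.lt_or_ge d k with hk | hk
  · apply h3 _ _ _ hsum.symm
    have hx := getD_le d g h k hk.le
    generalize ((toP d g h).sort (· ≥ ·)).getD k 0 = x at hx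
    rw [h2 d g h x hx, h2 d' g' h' x (hx.trans hd)]
    rcases Nat.eq_zero_or_pos x with h0 | h0
    · subst h0
      simp
    · have h5 := (hyp x (Finset.mem_Icc.mpr ⟨h0, hx⟩)).2
      zify
      push_cast at h5 ⊢
      nlinarith [h5]
  · rw [h1 d g h k hk, h1 d' g' h' k (hk.trans hd)]
    rcases Nat.eq_zero_or_pos k with h0 | h0
    · subst h0
      simp
    · have h5 := (hyp k (Finset.mem_Icc.mpr ⟨h0, hk⟩)).1
      zify
      push_cast at h5 ⊢
      nlinarith [h5]

end Pool.Agent.H383.GP174
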